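import Pool.Agent.Run7.h838.KC.Crit

/-!
# MP_b5f63d_co: the classical exponent of the kissing numbers and codes over bounded alphabets

`sphMax n θ` is the largest size of a spherical code of `ℝⁿ` with angular distance at least `θ` and
`codeRate θ n = (1/n) log_2 (sphMax n θ)`; `kissing n = sphMax n (π/3)`. The classical lower bound
(Chabauty, Shannon, Wyner) has the exponent `log_2 (1 / sin θ)`, for kissing numbers
`log_2 (2 / √3)`, and it is not known whether it can be improved.

`orbMax n m θ` is the largest size of a set of nonzero integer vectors of length `n` with entries of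
absolute value at most `m`, which are permutations of one another and have mutual angles at least
`θ`, and `orbRate θ m n = (1/n) log_2 (orbMax n m θ)`. `intMax n m θ` is the largest size of a set
of nonzero integer vectors of length `n` and Euclidean norm at most `m √n` with mutual angles at
least `θ`, and `intRate θ m n = (1/n) log_2 (intMax n m θ)`.

We prove that the classical exponent is exceeded if and only if it is reached by the codes of
permuted integer vectors with entries bounded by some constant `m`; it is even enough to come close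
to it with integer vectors of norm at most `m √n`, up to an explicit error.
-/

open Filter Set
open scoped Topology

open Pool.Agent.H818R2 Run7.h838.KO Run7.h838.KC

namespace Pool.Agent.Results.MP_b5f63d_co.BoundedAlphabetCriterion

lemma tan_pi3 : Real.tan (Real.pi / 3) ^ 2 = 3 := by
  rw [Real.tan_pi_div_three, Real.sq_sqrt (by norm_num)]

lemma inv_sin : 1 / Real.sin (Real.pi / 3) = 2 / √3 := by
  rw [Real.sin_pi_div_three]
  field_simp

/-- **The exponent of the classical lower bound can be improved if and only if it is reached over a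
bounded alphabet.** -/
theorem result :
    -- integer vectors of norm at most `m √n` are exponentially worse than the best codes, or the
    -- best codes are exponentially better than the classical lower bound
    (∀ θ : ℝ, 0 < θ → θ < Real.pi / 2 → ∀ m : ℕ, ∀ᶠ n : ℕ in atTop,
      Real.exp (Real.exp (-((1 + 2 * Real.pi * m) * Real.tan θ) ^ 2) / 250 * n) *
        min (intMax n m θ : ℝ) ((1 / Real.sin θ) ^ n) ≤ sphMax n θ) ∧
    -- the same for the exponents
    (∀ θ : ℝ, 0 < θ → θ < Real.pi / 2 → ∀ m : ℕ, 0 < m →
      min (limsup (intRate θ m) atTop) (Real.logb 2 (1 / Real.sin θ)) +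
        Real.exp (-((1 + 2 * Real.pi * m) * Real.tan θ) ^ 2) / 250 / Real.log 2 ≤
          limsup (codeRate θ) atTop ∧
      min (liminf (intRate θ m) atTop) (Real.logb 2 (1 / Real.sin θ)) +
        Real.exp (-((1 + 2 * Real.pi * m) * Real.tan θ) ^ 2) / 250 / Real.log 2 ≤
          liminf (codeRate θ) atTop) ∧
    -- the criteria for all angles
    (∀ θ : ℝ, 0 < θ → θ < Real.pi / 2 →
      (Real.logb 2 (1 / Real.sin θ) < limsup (codeRate θ) atTop ↔
        ∃ m : ℕ, Real.logb 2 (1 / Real.sin θ) ≤ limsup (orbRate θ m) atTop) ∧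
      (Real.logb 2 (1 / Real.sin θ) < liminf (codeRate θ) atTop ↔
        ∃ m : ℕ, Real.logb 2 (1 / Real.sin θ) ≤ liminf (orbRate θ m) atTop) ∧
      (Real.logb 2 (1 / Real.sin θ) < limsup (codeRate θ) atTop ↔
        ∃ m : ℕ, 0 < m ∧ Real.logb 2 (1 / Real.sin θ) -
          Real.exp (-((1 + 2 * Real.pi * m) * Real.tan θ) ^ 2) / 250 / Real.log 2 <
            limsup (intRate θ m) atTop) ∧
      (Real.logb 2 (1 / Real.sin θ) < liminf (codeRate θ) atTop ↔
        ∃ m : ℕ, 0 < m ∧ Real.logb 2 (1 / Real.sin θ) -
          Real.exp (-((1 + 2 * Real.pi * m) * Real.tan θ) ^ 2) / 250 / Real.log 2 <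
            liminf (intRate θ m) atTop)) ∧
    -- kissing numbers
    (∀ m : ℕ, ∀ᶠ n : ℕ in atTop,
      Real.exp (Real.exp (-(3 * (1 + 2 * Real.pi * m) ^ 2)) / 250 * n) *
        min (intMax n m (Real.pi / 3) : ℝ) ((2 / √3) ^ n) ≤ kissing n) ∧
    (Real.logb 2 (2 / √3) < limsup (fun d : ℕ => Real.logb 2 (kissing d) / d) atTop ↔
      ∃ m : ℕ, Real.logb 2 (2 / √3) ≤ limsup (orbRate (Real.pi / 3) m) atTop) ∧
    (Real.logb 2 (2 / √3) < liminf (fun d : ℕ => Real.logb 2 (kissing d) / d) atTop ↔
      ∃ m : ℕ, Real.logb 2 (2 / √3) ≤ liminf (orbRate (Real.pi / 3) m) atTop) := by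
  have hpi := Real.pi_pos
  have p1 : 0 < Real.pi / 3 := by positivity
  have p2 : Real.pi / 3 < Real.pi / 2 := by linarith
  refine ⟨fun θ h0 h1 m => int_bound h0 h1 m, fun θ h0 h1 m hm => lim_ineq h0 h1 hm,
    fun θ h0 h1 => ⟨(crit_sup h0 h1).1, (crit_inf h0 h1).1, (crit_sup h0 h1).2,
      (crit_inf h0 h1).2⟩, fun m => ?_, ?_, ?_⟩
  · filter_upwards [int_bound p1 p2 m] with n hn
    unfold gain at hn
    rw [mul_pow, tan_pi3, inv_sin] at hn
    rw [show 3 * (1 + 2 * Real.pi * (m : ℝ)) ^ 2 = (1 + 2 * Real.pi * (m : ℝ)) ^ 2 * 3 by ring]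
    exact hn
  · have h := (crit_sup p1 p2).1
    unfold capExp at h
    rw [inv_sin] at h
    exact h
  · have h := (crit_inf p1 p2).1
    unfold capExp at h
    rw [inv_sin] at h
    exact h

end Pool.Agent.Results.MP_b5f63d_co.BoundedAlphabetCriterion
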