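import Pool.Agent.Run7.h838.OB.Itp

/-!
# MP_b5f63d_co: kissing exponents of balls and of Orlicz balls

For an even convex function `φ` with `φ 0 = 0` and `φ 1 = 1` (`Orlicz φ`) let `kiss φ n` be the
kissing number of the convex body `{x : ∑ φ (x i) ≤ n}` of `ℝⁿ`: the largest number of points of its
boundary with mutual distances at least one in the norm with this unit ball (`IsKiss`), that is, of
translates of the body which touch it and do not overlap; `rate φ n = (1/n) log_2 (kiss φ n)`.
For `φ t = |t| ^ p` (`pw p`) the body is the ball of `ℓ_p^n`, and for `p = 2` the Euclidean ball,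
`kiss (pw 2) n = kissing n` (the number `τ(n)` of the problem).

We prove that the exponents of these kissing numbers, the upper and the lower ones, depend
continuously on `φ`, for locally uniform convergence; so the exponents of superballs depend
continuously on `p ∈ [1, ∞)`, and the exponents `c_-`, `c_+` of the problem are the limits for
`p → 2` of those of the superballs, and the limits for `m → ∞` of those of the polytopes
`{x : ∑ φ_m (x i) ≤ n}`, where `φ_m` is the piecewise linear interpolation of `t ^ 2` at the
multiples of `1 / m` (`itp m`).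

Proof: let `δ > 0` be small. Among the coordinates of a point `x` with `∑ φ (x i) = n` the `δ n`
largest values of `φ` have at least the sum `δ n`, and the other ones are at most `1 / δ`. There are
only `exp (O(√δ) n)` possibilities for the places of these coordinates and their values up to `1/2`,
so one may fix them. Subtracting the common rounded values makes all coordinates bounded and
decreases the sum by at least `δ n / 2`, whereas the differences of the points do not change at all;
now `φ` can be replaced by `ψ`, and one more coordinate brings all sums back to the same value.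
-/

set_option autoImplicit false

open Filter Topology
open Run7.h838.OB Pool.Agent.H818R2

namespace Pool.Agent.Results.MP_b5f63d_co.OrliczBalls

theorem result :
    -- kissing numbers of close Orlicz balls, and their exponents
    (∀ φ : ℝ → ℝ, Orlicz φ → ∀ ε > 0, ∃ ρ > 0, ∃ n0 : ℕ, ∀ ψ : ℝ → ℝ, Orlicz ψ →
      (∀ t, |t| ≤ 1 / ρ → |ψ t - φ t| ≤ ρ) →
      (∀ n ≥ n0, (kiss φ n : ℝ) ≤ Real.exp (ε * n) * kiss ψ (n + 1) ∧
        (kiss ψ n : ℝ) ≤ Real.exp (ε * n) * kiss φ (n + 1)) ∧
      |limsup (rate ψ) atTop - limsup (rate φ) atTop| ≤ ε ∧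
      |liminf (rate ψ) atTop - liminf (rate φ) atTop| ≤ ε) ∧
    -- superballs
    (∀ p : ℝ, 1 ≤ p → Orlicz (pw p)) ∧
    ContinuousOn (fun p : ℝ => limsup (rate (pw p)) atTop) (Set.Ici 1) ∧
    ContinuousOn (fun p : ℝ => liminf (rate (pw p)) atTop) (Set.Ici 1) ∧
    -- the Euclidean ball
    (∀ n : ℕ, 0 < n → kiss (pw 2) n = kissing n) ∧
    Tendsto (fun p : ℝ => limsup (rate (pw p)) atTop) (𝓝 2)
      (𝓝 (limsup (fun d : ℕ => Real.logb 2 (kissing d) / d) atTop)) ∧
    Tendsto (fun p : ℝ => liminf (rate (pw p)) atTop) (𝓝 2)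
      (𝓝 (liminf (fun d : ℕ => Real.logb 2 (kissing d) / d) atTop)) ∧
    -- polytopes
    (∀ m : ℕ, 0 < m → Orlicz (itp m)) ∧
    Tendsto (fun m => limsup (rate (itp m)) atTop) atTop
      (𝓝 (limsup (fun d : ℕ => Real.logb 2 (kissing d) / d) atTop)) ∧
    Tendsto (fun m => liminf (rate (itp m)) atTop) atTop
      (𝓝 (liminf (fun d : ℕ => Real.logb 2 (kissing d) / d) atTop)) := by
  refine ⟨fun φ hφ ε hε => ?_, fun p hp => orlicz_pw hp, cont_pow.1, cont_pow.2,
    fun n hn => kiss_two hn, lim_pow.1, lim_pow.2, fun m hm => orlicz_itp hm, lim_itp.1, lim_itp.2⟩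
  obtain ⟨ρ, hρ, n0, h⟩ := near hφ (show 0 < ε / 2 by positivity)
  refine ⟨ρ, hρ, n0, fun ψ hψ hc => ⟨fun n hn => ?_, ?_⟩⟩
  · have hle : Real.exp (ε / 2 * n) ≤ Real.exp (ε * n) := by
      apply Real.exp_le_exp.2
      apply mul_le_mul_of_nonneg_right _ (Nat.cast_nonneg n)
      linarith
    exact ⟨(h ψ hψ hc n hn).1.trans (mul_le_mul_of_nonneg_right hle (Nat.cast_nonneg _)),
      (h ψ hψ hc n hn).2.trans (mul_le_mul_of_nonneg_right hle (Nat.cast_nonneg _))⟩
  · have h1 := lim_of_near hφ hψ (fun n hn => (h ψ hψ hc n hn).1) (by positivity)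
    have h2 := lim_of_near hψ hφ (fun n hn => (h ψ hψ hc n hn).2) (by positivity)
    constructor <;> rw [abs_le] <;> constructor <;> linarith [h1.1, h1.2, h2.1, h2.2]

end Pool.Agent.Results.MP_b5f63d_co.OrliczBalls
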