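import Pool.Agent.Run7.h838.KO.Lim

/-!
# MP_b5f63d_co: kissing exponents and codes of permuted integer vectors

`sphMax n θ` is the largest size of a spherical code of `ℝⁿ` with angular distance at least `θ` and
`codeRate θ n = (1/n) log_2 (sphMax n θ)`; `kissing n = sphMax n (π/3)`. `orbMax n m θ` is the largest
size of a set of nonzero integer vectors of length `n` with entries of absolute value at most `m`,
which are permutations of one another and have mutual angles at least `θ`, and
`orbRate θ m n = (1/n) log_2 (orbMax n m θ)`. So such a set lies in one orbit of the symmetric group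
`S_n`. We prove that the exponents of these very special codes differ from the exponents of all
spherical codes by at most `(5 + 5 / (2 sin (θ/2)) + 2 log m) m^(-2/3)`, for every `m ≥ 12`; for
kissing configurations this is `(10 + 2 log m) m^(-2/3)`.
-/

open Filter Set
open scoped Topology

open Pool.Agent.H818R2 Run7.h838.KO

namespace Pool.Agent.Results.MP_b5f63d_co.PermutationOrbits

/-- the error for the kissing exponents, `(10 + 2 log m) m^(-2/3)` -/
lemma err_kissing (m : ℕ) :
    err (Real.pi / 3) m = (10 + 2 * Real.log m) * (m : ℝ) ^ (-(2 / 3) : ℝ) := by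
  unfold err
  rw [show Real.pi / 3 / 2 = Real.pi / 6 by ring, Real.sin_pi_div_six]
  norm_num

/-- **Spherical codes and orbits of the symmetric group.** -/
theorem result :
    -- all angles, all `m ≥ 12`, all large dimensions
    (∀ θ : ℝ, 0 < θ → θ < Real.pi / 2 → ∀ m : ℕ, 12 ≤ m →
      (∀ᶠ n : ℕ in atTop, orbRate θ m n ≤ codeRate θ n ∧
        codeRate θ n ≤ orbRate θ m n +
          (5 + 5 / (2 * Real.sin (θ / 2)) + 2 * Real.log m) * (m : ℝ) ^ (-(2 / 3) : ℝ)) ∧
      |limsup (codeRate θ) atTop - limsup (orbRate θ m) atTop| ≤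
        (5 + 5 / (2 * Real.sin (θ / 2)) + 2 * Real.log m) * (m : ℝ) ^ (-(2 / 3) : ℝ) ∧
      |liminf (codeRate θ) atTop - liminf (orbRate θ m) atTop| ≤
        (5 + 5 / (2 * Real.sin (θ / 2)) + 2 * Real.log m) * (m : ℝ) ^ (-(2 / 3) : ℝ)) ∧
    -- the limits; the exponent of all spherical codes exists if and only if the oscillation of the
    -- exponents of the orbit codes tends to zero
    (∀ θ : ℝ, 0 < θ → θ < Real.pi / 2 →
      Tendsto (fun m => limsup (orbRate θ m) atTop) atTop (𝓝 (limsup (codeRate θ) atTop)) ∧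
      Tendsto (fun m => liminf (orbRate θ m) atTop) atTop (𝓝 (liminf (codeRate θ) atTop)) ∧
      (liminf (codeRate θ) atTop = limsup (codeRate θ) atTop ↔
        Tendsto (fun m => limsup (orbRate θ m) atTop - liminf (orbRate θ m) atTop) atTop (𝓝 0))) ∧
    -- kissing numbers
    (∀ m : ℕ, 12 ≤ m → ∀ᶠ n : ℕ in atTop,
      (orbMax n m (Real.pi / 3) : ℝ) ≤ kissing n ∧
      (kissing n : ℝ) ≤
        (2 : ℝ) ^ ((10 + 2 * Real.log m) * (m : ℝ) ^ (-(2 / 3) : ℝ) * n) *
          orbMax n m (Real.pi / 3)) ∧
    Tendsto (fun m => limsup (orbRate (Real.pi / 3) m) atTop) atTop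
      (𝓝 (limsup (fun d : ℕ => Real.logb 2 (kissing d) / d) atTop)) ∧
    Tendsto (fun m => liminf (orbRate (Real.pi / 3) m) atTop) atTop
      (𝓝 (liminf (fun d : ℕ => Real.logb 2 (kissing d) / d) atTop)) := by
  have hpi := Real.pi_pos
  refine ⟨fun θ h1 h2 m hm => ⟨?_, ?_, ?_⟩, fun θ h1 h2 => ?_, fun m hm => ?_, ?_, ?_⟩
  · have hs : 0 < Real.sin (θ / 2) := Real.sin_pos_of_pos_of_lt_pi (by linarith) (by linarith)
    filter_upwards [rate_close h1 h2 hm, eventually_gt_atTop 0] with n hn hn0
    exact ⟨(orbRate_le hs hn0 (by omega)).2, hn⟩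
  · have := (lims h1 h2 hm).1
    rw [abs_of_nonneg (by linarith [this.1])]
    have h3 := this.2
    unfold err at h3
    linarith
  · have := (lims h1 h2 hm).2
    rw [abs_of_nonneg (by linarith [this.1])]
    have h3 := this.2
    unfold err at h3
    linarith
  · obtain ⟨h3, h4⟩ := tendsto_lims h1 h2
    refine ⟨h3, h4, ?_⟩
    have h5 := h3.sub h4
    constructor
    · intro h
      rw [h, sub_self] at h5
      exact h5
    · intro h
      have := tendsto_nhds_unique h5 h
      linarith
  · have hs : 0 < Real.sin (Real.pi / 3 / 2) :=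
      Real.sin_pos_of_pos_of_lt_pi (by positivity) (by linarith)
    filter_upwards [rate_close (θ := Real.pi / 3) (by positivity) (by linarith) hm,
      eventually_gt_atTop 1] with n hn hn0
    have hO : 1 ≤ orbMax n m (Real.pi / 3) := orbMax_pos (by omega) (by omega) _
    have hO' : (0 : ℝ) < orbMax n m (Real.pi / 3) := by exact_mod_cast hO
    have hK : orbMax n m (Real.pi / 3) ≤ kissing n := orb_le_sph m (by omega) hs
    have hK' : (0 : ℝ) < kissing n := by exact_mod_cast lt_of_lt_of_le hO hK
    have hn' : (0 : ℝ) < n := by exact_mod_cast (by omega : 0 < n)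
    refine ⟨by exact_mod_cast hK, ?_⟩
    rw [err_kissing] at hn
    unfold codeRate orbRate at hn
    have h3 : Real.logb 2 (kissing n) ≤ Real.logb 2 (orbMax n m (Real.pi / 3)) +
        (10 + 2 * Real.log m) * (m : ℝ) ^ (-(2 / 3) : ℝ) * n := by
      have h4 := mul_le_mul_of_nonneg_right hn hn'.le
      rw [add_mul, div_mul_cancel₀ _ hn'.ne', div_mul_cancel₀ _ hn'.ne'] at h4
      exact h4
    have h5 := Real.rpow_le_rpow_of_exponent_le (show (1 : ℝ) ≤ 2 by norm_num) h3
    rw [Real.rpow_add (by norm_num), Real.rpow_logb (by norm_num) (by norm_num) hK',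
      Real.rpow_logb (by norm_num) (by norm_num) hO'] at h5
    linarith
  · exact (tendsto_lims (θ := Real.pi / 3) (by positivity) (by linarith)).1
  · exact (tendsto_lims (θ := Real.pi / 3) (by positivity) (by linarith)).2

end Pool.Agent.Results.MP_b5f63d_co.PermutationOrbits
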