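import Pool.Agent.Run7.h838.KC.Fam

/-!
# MP_b5f63d_co: the distribution of the coordinates in large kissing configurations

`sphMax n θ` is the largest size of a spherical code of `ℝⁿ` with angular distance at least `θ`
(`IsSphCode n θ X`: `X` is such a code) and `kissing n = sphMax n (π/3)`. The coordinate
distribution `coordLaw x` of a unit vector `x` of `ℝⁿ` is the uniform distribution on the `n`
numbers `√n x_i`. For a random unit vector it is close to the standard normal law. We prove: in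
each large dimension either the largest codes are exponentially larger than the classical lower
bound `(1 / sin θ)^n`, for kissing numbers `(2 / √3)^n`, or all but an exponentially small
proportion of the points of the largest codes have almost normal coordinate distributions, in all of
exponentially many prescribed orthonormal frames at the same time. The linear statistics
`stat w α t x = (1/n) ∑ w_i cos (t √n x_i + α_i)` have an explicit exponent.
-/

open MeasureTheory ProbabilityTheory Filter Set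
open scoped Topology

open Pool.Agent.H818R2 Run7.h838.KC

namespace Pool.Agent.Results.MP_b5f63d_co.TypicalCoordinates

lemma alt {M a G y : ℝ} (h : a * min y G ≤ M) (hG : ¬ a * G ≤ M) : a * y ≤ M := by
  rcases le_total y G with h1 | h1
  · rwa [min_eq_left h1] at h
  · rw [min_eq_right h1] at h
    exact absurd h hG

/-- **Typical coordinates of large spherical codes.** -/
theorem result :
    -- linear statistics, exponentially many frames
    (∀ θ : ℝ, 0 < θ → θ < Real.pi / 2 → ∀ τ η c : ℝ, 0 < η →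
      c = η ^ 2 * Real.exp (-(τ * Real.tan θ) ^ 2) / 32 → ∃ n0 : ℕ, ∀ n : ℕ, n0 ≤ n →
      ∀ (ι : Type) [Fintype ι], (Fintype.card ι : ℝ) ≤ Real.exp (c * n) →
      ∀ (g : ι → (EuclideanSpace ℝ (Fin n) ≃ₗᵢ[ℝ] EuclideanSpace ℝ (Fin n)))
        (w α : ι → Fin n → ℝ) (t : ι → ℝ), (∀ j i, |w j i| ≤ 1) → (∀ j, |t j| ≤ τ) →
      Real.exp (c * n) * (1 / Real.sin θ) ^ n ≤ sphMax n θ ∨
      ∀ Y : Finset (EuclideanSpace ℝ (Fin n)), IsSphCode n θ Y →
        (∀ y ∈ Y, ∃ j, η ≤ |stat (w j) (α j) (t j) (g j y) -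
          Real.exp (-(t j ^ 2 / 2)) * stat (w j) (α j) (t j) 0|) →
        Real.exp (c * n) * Y.card ≤ sphMax n θ) ∧
    -- the distribution of the coordinates
    (∀ θ : ℝ, 0 < θ → θ < Real.pi / 2 → ∀ ε : ℝ, 0 < ε → ∃ c : ℝ, 0 < c ∧ ∃ n0 : ℕ, ∀ n : ℕ,
      n0 ≤ n → ∀ (ι : Type) [Fintype ι], (Fintype.card ι : ℝ) ≤ Real.exp (c * n) →
      ∀ g : ι → (EuclideanSpace ℝ (Fin n) ≃ₗᵢ[ℝ] EuclideanSpace ℝ (Fin n)),
      Real.exp (c * n) * (1 / Real.sin θ) ^ n ≤ sphMax n θ ∨
      ∀ Y : Finset (EuclideanSpace ℝ (Fin n)), IsSphCode n θ Y →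
        (∀ y ∈ Y, ∃ j, ε ≤ levyProkhorovDist (coordLaw (g j y)) (gaussianReal 0 1)) →
        Real.exp (c * n) * Y.card ≤ sphMax n θ) ∧
    -- the largest kissing configurations
    (∀ ε : ℝ, 0 < ε → ∃ c : ℝ, 0 < c ∧ ∃ n0 : ℕ, ∀ n : ℕ, n0 ≤ n →
      ∀ (ι : Type) [Fintype ι], (Fintype.card ι : ℝ) ≤ Real.exp (c * n) →
      ∀ g : ι → (EuclideanSpace ℝ (Fin n) ≃ₗᵢ[ℝ] EuclideanSpace ℝ (Fin n)),
      Real.exp (c * n) * (2 / √3) ^ n ≤ kissing n ∨
      ∀ X : Finset (EuclideanSpace ℝ (Fin n)), IsSphCode n (Real.pi / 3) X →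
        X.card = kissing n → ∀ Y ⊆ X,
        (∀ y ∈ Y, ∃ j, ε ≤ levyProkhorovDist (coordLaw (g j y)) (gaussianReal 0 1)) →
        (Y.card : ℝ) ≤ Real.exp (-(c * n)) * X.card) := by
  have hpi := Real.pi_pos
  have gen : ∀ θ : ℝ, 0 < θ → θ < Real.pi / 2 → ∀ ε : ℝ, 0 < ε → ∃ c : ℝ, 0 < c ∧ ∃ n0 : ℕ,
      ∀ n : ℕ, n0 ≤ n → ∀ (ι : Type) [Fintype ι], (Fintype.card ι : ℝ) ≤ Real.exp (c * n) →
      ∀ g : ι → (EuclideanSpace ℝ (Fin n) ≃ₗᵢ[ℝ] EuclideanSpace ℝ (Fin n)),
      Real.exp (c * n) * (1 / Real.sin θ) ^ n ≤ sphMax n θ ∨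
      ∀ Y : Finset (EuclideanSpace ℝ (Fin n)), IsSphCode n θ Y →
        (∀ y ∈ Y, ∃ j, ε ≤ levyProkhorovDist (coordLaw (g j y)) (gaussianReal 0 1)) →
        Real.exp (c * n) * Y.card ≤ sphMax n θ := by
    intro θ h0 h1 ε hε
    obtain ⟨c, hc, n0, h⟩ := atypical h0 h1 hε
    refine ⟨c, hc, n0, fun n hn ι _ hι g => ?_⟩
    by_cases hG : Real.exp (c * n) * (1 / Real.sin θ) ^ n ≤ sphMax n θ
    · exact Or.inl hG
    · exact Or.inr fun Y hY hat => alt (h n hn ι hι g Y hY hat) hG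
  refine ⟨fun θ h0 h1 τ η c hη hc => ?_, gen, fun ε hε => ?_⟩
  · have hc' : c = (η * Real.exp (-((τ * Real.tan θ) ^ 2 / 2))) ^ 2 / 32 := by
      rw [hc, mul_pow η, ← Real.exp_nat_mul]
      have : ((2 : ℕ) : ℝ) * -((τ * Real.tan θ) ^ 2 / 2) = -(τ * Real.tan θ) ^ 2 := by
        push_cast; ring
      rw [this]
    obtain ⟨n0, h⟩ := family h0 h1 τ hη hc'
    refine ⟨n0, fun n hn ι _ hι g w α t hw ht => ?_⟩
    by_cases hG : Real.exp (c * n) * (1 / Real.sin θ) ^ n ≤ sphMax n θ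
    · exact Or.inl hG
    · exact Or.inr fun Y hY hat => alt (h n hn ι hι g w α t hw ht Y hY hat) hG
  · obtain ⟨c, hc, n0, h⟩ := gen (Real.pi / 3) (by positivity) (by linarith) ε hε
    refine ⟨c, hc, n0, fun n hn ι _ hι g => ?_⟩
    have e : 1 / Real.sin (Real.pi / 3) = 2 / √3 := by
      rw [Real.sin_pi_div_three]
      field_simp
    rcases h n hn ι hι g with h1 | h1
    · left
      rw [e] at h1
      exact h1
    · right
      intro X hX hcard Y hYX hat
      have hY : IsSphCode n (Real.pi / 3) Y :=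
        ⟨fun y hy => hX.1 y (hYX hy), fun y hy z hz => hX.2 y (hYX hy) z (hYX hz)⟩
      have h2 := h1 Y hY hat
      have h3 : ((sphMax n (Real.pi / 3) : ℕ) : ℝ) = X.card := by
        rw [hcard]; rfl
      rw [h3] at h2
      rw [Real.exp_neg, ← div_eq_inv_mul, le_div_iff₀ (Real.exp_pos _), mul_comm]
      exact h2

end Pool.Agent.Results.MP_b5f63d_co.TypicalCoordinates
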